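import Mathlib
import Pool.Agent.H592.TR.Stm

/-!
# TR3 (helper921 for helper592): the proportions at the prime 2
-/

set_option autoImplicit false

open Finset Filter Topology

namespace Pool.Agent.H921.TR

open Pool.Agent.H592.TR

/-! ### counting -/

theorem cntmod (r N a : ℕ) (hr : 0 < r) :
    ((range (r * N)).filter (fun c => c ≡ a [MOD r])).card = N := by
  rw [← Nat.count_eq_card_filter_range, Nat.count_modEq_card _ hr, Nat.mul_mod_right,
    if_neg (Nat.not_lt_zero _), add_zero, Nat.mul_div_cancel_left _ hr]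

theorem cnt_odd {b : ℕ} (hb : Odd b) (t : ℤ) {k l : ℕ} (h : k ≤ l) :
    ((range (2 ^ l)).filter (fun c : ℕ => ((2 ^ k : ℕ) : ℤ) ∣ (b : ℤ) * c + t)).card =
      2 ^ (l - k) := by
  have hcop : IsCoprime (b : ℤ) ((2 ^ k : ℕ) : ℤ) := by
    rw [Nat.isCoprime_iff_coprime]
    exact Nat.Coprime.pow_right k (Nat.coprime_two_right.2 hb)
  obtain ⟨x, y, hxy⟩ := hcop
  have hpos : ((2 ^ k : ℕ) : ℤ) ≠ 0 := by positivity
  obtain ⟨c0, hc0⟩ : ∃ c0 : ℕ, (c0 : ℤ) = (-t * x) % ((2 ^ k : ℕ) : ℤ) :=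
    ⟨((-t * x) % ((2 ^ k : ℕ) : ℤ)).toNat, Int.toNat_of_nonneg (Int.emod_nonneg _ hpos)⟩
  have h1 : ((2 ^ k : ℕ) : ℤ) ∣ (b : ℤ) * c0 + t := by
    have h2 := Int.emod_add_mul_ediv (-t * x) ((2 ^ k : ℕ) : ℤ)
    rw [← hc0] at h2
    refine ⟨t * y - b * ((-t * x) / ((2 ^ k : ℕ) : ℤ)), ?_⟩
    linear_combination (b : ℤ) * h2 - t * hxy
  have key : ∀ c : ℕ, ((2 ^ k : ℕ) : ℤ) ∣ (b : ℤ) * c + t ↔ c ≡ c0 [MOD 2 ^ k] := by
    intro c
    have h2 : (b : ℤ) * c + t = b * (c - c0) + (b * c0 + t) := by ring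
    rw [h2, dvd_add_left h1, Nat.modEq_iff_dvd]
    constructor
    · intro h3
      have h4 := IsCoprime.dvd_of_dvd_mul_left (IsCoprime.symm ⟨x, y, hxy⟩) h3
      rw [← dvd_neg, neg_sub]
      exact h4
    · intro h3
      rw [← dvd_neg, neg_sub] at h3
      exact h3.mul_left _
  rw [Finset.filter_congr fun c _ => key c]
  have h3 : 2 ^ l = 2 ^ k * 2 ^ (l - k) := by rw [← pow_add, Nat.add_sub_cancel' h]
  rw [h3, cntmod _ _ _ (by positivity)]

theorem card_prod (L : ℕ) (P : ℕ × ℕ → Prop) [DecidablePred P] :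
    ((range L ×ˢ range L).filter P).card =
      ∑ b ∈ range L, ((range L).filter (fun c => P (b, c))).card := by
  simp only [Finset.card_filter, Finset.sum_product]

theorem two_dvd_of {k : ℕ} (hk : 1 ≤ k) {z : ℤ} (h : ((2 ^ k : ℕ) : ℤ) ∣ z) : (2 : ℤ) ∣ z := by
  refine dvd_trans ?_ h
  have : (2 : ℕ) ∣ 2 ^ k := dvd_pow_self 2 (by omega)
  exact_mod_cast this

theorem four_dvd_of {k : ℕ} (hk : 2 ≤ k) {z : ℤ} (h : ((2 ^ k : ℕ) : ℤ) ∣ z) : (4 : ℤ) ∣ z := by
  refine dvd_trans ?_ h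
  have : (2 ^ 2 : ℕ) ∣ 2 ^ k := pow_dvd_pow 2 hk
  exact_mod_cast this

theorem card_mod_two {l : ℕ} (hl : 1 ≤ l) :
    ((range (2 ^ l)).filter (fun b => b ≡ 1 [MOD 2])).card = 2 ^ (l - 1) := by
  have h3 : 2 ^ l = 2 * 2 ^ (l - 1) := by
    rw [← pow_succ']
    congr 1
    omega
  rw [h3, cntmod _ _ _ (by norm_num)]

theorem card_mod_four {l : ℕ} (hl : 2 ≤ l) :
    ((range (2 ^ l)).filter (fun b => b ≡ 2 [MOD 4])).card = 2 ^ (l - 2) := by
  have h3 : 2 ^ l = 4 * 2 ^ (l - 2) := by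
    have : (4 : ℕ) = 2 ^ 2 := by norm_num
    rw [this, ← pow_add]
    congr 1
    omega
  rw [h3, cntmod _ _ _ (by norm_num)]

theorem tot_odd (t : ℤ) (ht : Odd t) {k l : ℕ} (hk : 1 ≤ k) (h : k ≤ l) :
    ((range (2 ^ l) ×ˢ range (2 ^ l)).filter
      (fun p : ℕ × ℕ => ((2 ^ k : ℕ) : ℤ) ∣ (p.1 : ℤ) * p.2 + t)).card = 2 ^ (l - 1) * 2 ^ (l - k) := by
  rw [card_prod]
  have h1 : ∀ b ∈ range (2 ^ l), ((range (2 ^ l)).filter
      (fun c : ℕ => ((2 ^ k : ℕ) : ℤ) ∣ (b : ℤ) * c + t)).card =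
        if b ≡ 1 [MOD 2] then 2 ^ (l - k) else 0 := by
    intro b _
    split_ifs with hb
    · exact cnt_odd (Nat.odd_iff.2 hb) t h
    · rw [Finset.card_eq_zero, Finset.filter_eq_empty_iff]
      intro c _ hc
      have h2 := two_dvd_of hk hc
      have h3 : Even b := by
        rw [← Nat.not_odd_iff_even]
        exact fun h4 => hb (Nat.odd_iff.1 h4)
      obtain ⟨b', rfl⟩ := h3
      obtain ⟨t', rfl⟩ := ht
      push_cast at h2
      have h5 : ((b' : ℤ) + b') * c + (2 * t' + 1) = 2 * (b' * c + t') + 1 := by ring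
      rw [h5] at h2
      omega
  rw [Finset.sum_congr rfl h1, ← Finset.sum_filter, Finset.sum_const, smul_eq_mul,
    card_mod_two (hk.trans h)]

theorem tot_two (w : ℤ) (hw : Odd w) {k : ℕ} (hk : 2 ≤ k) :
    ((range (2 ^ k) ×ˢ range (2 ^ k)).filter
      (fun p : ℕ × ℕ => ((2 ^ k : ℕ) : ℤ) ∣ (p.1 : ℤ) * p.2 + 2 * w)).card = 2 ^ k := by
  rw [card_prod]
  have h1 : ∀ b ∈ range (2 ^ k), ((range (2 ^ k)).filter
      (fun c : ℕ => ((2 ^ k : ℕ) : ℤ) ∣ (b : ℤ) * c + 2 * w)).card =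
        (if b ≡ 1 [MOD 2] then 1 else 0) + (if b ≡ 2 [MOD 4] then 2 else 0) := by
    intro b _
    by_cases hb : b ≡ 1 [MOD 2]
    · have hb' : ¬ b ≡ 2 [MOD 4] := by
        intro h2
        have h3 : b % 2 = 1 := hb
        have h4 : b % 4 = 2 := h2
        omega
      rw [if_pos hb, if_neg hb', cnt_odd (Nat.odd_iff.2 hb) (2 * w) le_rfl, Nat.sub_self,
        pow_zero, add_zero]
    · rw [if_neg hb]
      have h3 : b % 2 = 0 := by
        have : ¬ b % 2 = 1 := hb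
        omega
      obtain ⟨b', hb'⟩ : ∃ b', b = 2 * b' := ⟨b / 2, by omega⟩
      subst hb'
      obtain ⟨k', rfl⟩ : ∃ k', k = k' + 1 := ⟨k - 1, by omega⟩
      have h4 : ∀ c : ℕ, ((2 ^ (k' + 1) : ℕ) : ℤ) ∣ ((2 * b' : ℕ) : ℤ) * c + 2 * w ↔
          ((2 ^ k' : ℕ) : ℤ) ∣ (b' : ℤ) * c + w := by
        intro c
        have h5 : ((2 * b' : ℕ) : ℤ) * c + 2 * w = 2 * (b' * c + w) := by
          push_cast
          ring
        have h6 : ((2 ^ (k' + 1) : ℕ) : ℤ) = 2 * ((2 ^ k' : ℕ) : ℤ) := by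
          push_cast
          ring
        rw [h5, h6]
        exact mul_dvd_mul_iff_left (by norm_num)
      rw [Finset.filter_congr fun c _ => h4 c]
      by_cases hb' : Odd b'
      · have h5 : 2 * b' ≡ 2 [MOD 4] := by
          obtain ⟨d, rfl⟩ := hb'
          show 2 * (2 * d + 1) % 4 = 2
          omega
        rw [if_pos h5, cnt_odd hb' w (Nat.le_succ k'), zero_add]
        have : k' + 1 - k' = 1 := by omega
        rw [this, pow_one]
      · have h5 : ¬ 2 * b' ≡ 2 [MOD 4] := by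
          intro h6
          apply hb'
          have h7 : 2 * b' % 4 = 2 := h6
          rw [Nat.odd_iff]
          omega
        rw [if_neg h5, add_zero, Finset.card_eq_zero, Finset.filter_eq_empty_iff]
        intro c _ hc
        have h6 := two_dvd_of (by omega) hc
        rw [Nat.not_odd_iff_even] at hb'
        obtain ⟨d, rfl⟩ := hb'
        obtain ⟨w', rfl⟩ := hw
        push_cast at h6
        have h7 : ((d : ℤ) + d) * c + (2 * w' + 1) = 2 * (d * c + w') + 1 := by ring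
        rw [h7] at h6
        omega
  rw [Finset.sum_congr rfl h1, Finset.sum_add_distrib, ← Finset.sum_filter, ← Finset.sum_filter,
    Finset.sum_const, Finset.sum_const, smul_eq_mul, smul_eq_mul,
    card_mod_two (by omega), card_mod_four hk]
  obtain ⟨m, rfl⟩ : ∃ m, k = m + 2 := ⟨k - 2, by omega⟩
  have e1 : m + 2 - 1 = m + 1 := by omega
  have e2 : m + 2 - 2 = m := by omega
  rw [e1, e2, pow_succ, pow_succ, pow_succ]
  ring

/-! ### the proportions -/

theorem RR_of (u v : ℤ) (i j : ℕ) (P : ℕ × ℕ → Prop) [DecidablePred P]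
    (hP : ∀ p : ℕ × ℕ, (((2 ^ i : ℕ) : ℤ) ∣ (p.1 : ℤ) * p.2 + u ∧
      ((2 ^ j : ℕ) : ℤ) ∣ (p.1 : ℤ) * p.2 + v) ↔ P p) :
    RR u v (2 ^ i) (2 ^ j) =
      (((range (2 ^ (i + j)) ×ˢ range (2 ^ (i + j))).filter P).card : ℝ) / (2 ^ (i + j)) ^ 2 := by
  unfold RR
  rw [Finset.filter_congr fun p _ => hP p, ← pow_add]
  congr 1
  push_cast
  rw [← pow_add]

theorem RR_odd (u v t : ℤ) (ht : Odd t) (i j k : ℕ) (hk : 1 ≤ k) (hkl : k ≤ i + j)
    (hP : ∀ z : ℤ, (((2 ^ i : ℕ) : ℤ) ∣ z + u ∧ ((2 ^ j : ℕ) : ℤ) ∣ z + v) ↔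
      ((2 ^ k : ℕ) : ℤ) ∣ z + t) :
    RR u v (2 ^ i) (2 ^ j) = 1 / 2 / 2 ^ k := by
  rw [RR_of u v i j (fun p => ((2 ^ k : ℕ) : ℤ) ∣ (p.1 : ℤ) * p.2 + t) (fun p => hP _),
    tot_odd t ht hk hkl]
  obtain ⟨e, he⟩ : ∃ e, i + j = k + e := ⟨i + j - k, by omega⟩
  obtain ⟨k', rfl⟩ : ∃ k', k = k' + 1 := ⟨k - 1, by omega⟩
  rw [he]
  have e1 : k' + 1 + e - 1 = k' + e := by omega
  have e2 : k' + 1 + e - (k' + 1) = e := by omega
  rw [e1, e2]
  push_cast
  rw [div_eq_div_iff (by positivity) (by positivity)]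
  ring

theorem RR_two (u w : ℤ) (hw : Odd w) (j : ℕ) (hj : 2 ≤ j) :
    RR u (2 * w) (2 ^ 0) (2 ^ j) = 1 / 2 ^ j := by
  rw [RR_of u (2 * w) 0 j (fun p => ((2 ^ j : ℕ) : ℤ) ∣ (p.1 : ℤ) * p.2 + 2 * w) (fun p => by
    rw [pow_zero, Nat.cast_one]
    exact and_iff_right (one_dvd _)), zero_add, tot_two w hw hj]
  push_cast
  rw [div_eq_div_iff (by positivity) (by positivity)]
  ring

theorem RR_one (u w : ℤ) : RR u (2 * w) (2 ^ 0) (2 ^ 1) = 3 / 4 := by
  rw [RR_of u (2 * w) 0 1 (fun p => ((2 ^ 1 : ℕ) : ℤ) ∣ (p.1 : ℤ) * p.2 + 2 * w) (fun p => by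
    rw [pow_zero, Nat.cast_one]
    exact and_iff_right (one_dvd _)), zero_add, card_prod]
  have h0 : ((range (2 ^ 1)).filter
      (fun c : ℕ => ((2 ^ 1 : ℕ) : ℤ) ∣ ((0 : ℕ) : ℤ) * c + 2 * w)).card = 2 := by
    rw [Finset.filter_true_of_mem, Finset.card_range, pow_one]
    intro c _
    push_cast
    rw [zero_mul, zero_add]
    exact dvd_mul_right _ _
  have h1 : ((range (2 ^ 1)).filter
      (fun c : ℕ => ((2 ^ 1 : ℕ) : ℤ) ∣ ((1 : ℕ) : ℤ) * c + 2 * w)).card = 1 := by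
    rw [cnt_odd odd_one (2 * w) le_rfl, Nat.sub_self, pow_zero]
  have h2 : ∑ b ∈ range (2 ^ 1), ((range (2 ^ 1)).filter
      (fun c : ℕ => ((2 ^ 1 : ℕ) : ℤ) ∣ (((b, c) : ℕ × ℕ).1 : ℤ) * (((b, c) : ℕ × ℕ).2 : ℤ) +
        2 * w)).card = 3 := by
    rw [show (2 : ℕ) ^ 1 = 0 + 1 + 1 by norm_num, Finset.sum_range_succ, Finset.sum_range_succ,
      Finset.sum_range_zero, zero_add]
    exact congrArg₂ (· + ·) h0 h1
  rw [h2]
  norm_num

theorem RR_zero (u v : ℤ) (i j : ℕ)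
    (hP : ∀ z : ℤ, ¬ (((2 ^ i : ℕ) : ℤ) ∣ z + u ∧ ((2 ^ j : ℕ) : ℤ) ∣ z + v)) :
    RR u v (2 ^ i) (2 ^ j) = 0 := by
  rw [RR_of u v i j (fun _ => False) (fun p => iff_false_intro (hP _)), Finset.filter_false,
    Finset.card_empty, Nat.cast_zero, zero_div]

theorem RR_00 (u v : ℤ) : RR u v (2 ^ 0) (2 ^ 0) = 1 := by
  rw [RR_of u v 0 0 (fun _ => True) (fun p => by
    rw [pow_zero, Nat.cast_one]
    exact iff_true_intro ⟨one_dvd _, one_dvd _⟩), Finset.filter_true, Finset.card_product,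
    Finset.card_range]
  norm_num

theorem RR_swap (u v : ℤ) (m n : ℕ) : RR u v m n = RR v u n m := by
  unfold RR
  rw [Nat.mul_comm m n, mul_comm (m : ℝ) n]
  congr 2
  exact congrArg Finset.card (Finset.filter_congr fun p _ => and_comm)

/-! ### the tables -/

/-- the table for `u` odd, `v = 2 mod 4` -/
noncomputable def TA (p : ℕ × ℕ) : ℝ :=
  if p.2 = 0 then (if p.1 = 0 then 1 else 1 / 2 / 2 ^ p.1)
  else if p.1 = 0 then (if p.2 = 1 then 3 / 4 else 1 / 2 ^ p.2) else 0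

/-- the table for `u = -1`, `v = 1` -/
noncomputable def TB (p : ℕ × ℕ) : ℝ :=
  if p.2 = 0 then (if p.1 = 0 then 1 else 1 / 2 / 2 ^ p.1)
  else if p.1 = 0 then 1 / 2 / 2 ^ p.2
  else if p.2 = 1 then 1 / 2 / 2 ^ p.1
  else if p.1 = 1 then 1 / 2 / 2 ^ p.2 else 0

theorem tabA (u w : ℤ) (hu : Odd u) (hw : Odd w) (i j : ℕ) :
    RR u (2 * w) (2 ^ i) (2 ^ j) = TA (i, j) := by
  unfold TA
  by_cases hj : j = 0
  · subst hj
    by_cases hi : i = 0
    · subst hi
      rw [RR_00]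
      simp
    · rw [if_pos rfl, if_neg hi]
      refine RR_odd u (2 * w) u hu i 0 i (by omega) (by omega) (fun z => ?_)
      rw [pow_zero, Nat.cast_one]
      exact and_iff_left (one_dvd _)
  · by_cases hi : i = 0
    · subst hi
      rw [if_neg hj, if_pos rfl]
      by_cases hj1 : j = 1
      · subst hj1
        rw [if_pos rfl, RR_one]
      · rw [if_neg hj1, RR_two u w hw j (by omega)]
    · rw [if_neg hj, if_neg hi]
      refine RR_zero _ _ _ _ (fun z hz => ?_)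
      have h1 := two_dvd_of (by omega) hz.1
      have h2 := two_dvd_of (by omega) hz.2
      obtain ⟨u', rfl⟩ := hu
      omega

theorem tabB (i j : ℕ) : RR (-1) 1 (2 ^ i) (2 ^ j) = TB (i, j) := by
  unfold TB
  by_cases hj : j = 0
  · subst hj
    by_cases hi : i = 0
    · subst hi
      rw [RR_00]
      simp
    · rw [if_pos rfl, if_neg hi]
      refine RR_odd (-1) 1 (-1) (by decide) i 0 i (by omega) (by omega) (fun z => ?_)
      rw [pow_zero, Nat.cast_one]
      exact and_iff_left (one_dvd _)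
  · by_cases hi : i = 0
    · subst hi
      rw [if_neg hj, if_pos rfl]
      refine RR_odd (-1) 1 1 (by decide) 0 j j (by omega) (by omega) (fun z => ?_)
      rw [pow_zero, Nat.cast_one]
      exact and_iff_right (one_dvd _)
    · rw [if_neg hj, if_neg hi]
      by_cases hj1 : j = 1
      · subst hj1
        rw [if_pos rfl]
        refine RR_odd (-1) 1 (-1) (by decide) i 1 i (by omega) (by omega) (fun z => ?_)
        refine and_iff_left_of_imp fun h => ?_
        have h1 := two_dvd_of (by omega) h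
        rw [pow_one]
        omega
      · rw [if_neg hj1]
        by_cases hi1 : i = 1
        · subst hi1
          rw [if_pos rfl]
          refine RR_odd (-1) 1 1 (by decide) 1 j j (by omega) (by omega) (fun z => ?_)
          refine and_iff_right_of_imp fun h => ?_
          have h1 := two_dvd_of (by omega) h
          rw [pow_one]
          omega
        · rw [if_neg hi1]
          refine RR_zero _ _ _ _ (fun z hz => ?_)
          have h1 := four_dvd_of (by omega) hz.1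
          have h2 := four_dvd_of (by omega) hz.2
          omega

/-! ### sums -/

theorem row {a : ℕ → ℝ} {s : ℝ} (h : HasSum a s) (j : ℕ) :
    HasSum (fun p : ℕ × ℕ => if p.2 = j then a p.1 else 0) s := by
  have hinj : Function.Injective (fun i : ℕ => ((i, j) : ℕ × ℕ)) := fun x y hxy =>
    congrArg Prod.fst hxy
  refine (hinj.hasSum_iff ?_).1 ?_
  · rintro ⟨x, y⟩ hx
    refine if_neg fun h1 => hx ⟨x, ?_⟩
    exact Prod.ext rfl h1.symm
  · refine h.congr_fun ?_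
    intro x
    simp

theorem col {a : ℕ → ℝ} {s : ℝ} (h : HasSum a s) (i : ℕ) :
    HasSum (fun p : ℕ × ℕ => if p.1 = i then a p.2 else 0) s := by
  have h1 := (Equiv.prodComm ℕ ℕ).hasSum_iff.2 (row h i)
  exact h1

theorem geo : HasSum (fun n : ℕ => (1 / 2 : ℝ) ^ n) 2 := hasSum_geometric_two

/-- first column -/
noncomputable def a0 (i : ℕ) : ℝ := if i = 0 then 1 else 1 / 2 / 2 ^ i

/-- first row for `TA` -/
noncomputable def b0 (j : ℕ) : ℝ := if j = 0 then 0 else if j = 1 then 3 / 4 else 1 / 2 ^ j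

/-- first row for `TB` -/
noncomputable def c0 (j : ℕ) : ℝ := if j = 0 then 0 else 1 / 2 / 2 ^ j

/-- second row for `TB` -/
noncomputable def d0 (j : ℕ) : ℝ := if j = 0 then 0 else if j = 1 then 0 else 1 / 2 / 2 ^ j

theorem sum_a0 : HasSum a0 (3 / 2) := by
  have h := (geo.mul_left (1 / 2)).add (hasSum_ite_eq 0 (1 / 2 : ℝ))
  have e : (1 / 2 * 2 + 1 / 2 : ℝ) = 3 / 2 := by norm_num
  rw [e] at h
  refine h.congr_fun fun i => ?_
  unfold a0
  by_cases hi : i = 0
  · subst hi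
    norm_num
  · rw [if_neg hi, if_neg hi, one_div_pow]
    ring

theorem sum_b0 : HasSum b0 (5 / 4) := by
  have h := (geo.add (hasSum_ite_eq 0 (-1 : ℝ))).add (hasSum_ite_eq 1 (1 / 4 : ℝ))
  have e : (2 + -1 + 1 / 4 : ℝ) = 5 / 4 := by norm_num
  rw [e] at h
  refine h.congr_fun fun j => ?_
  unfold b0
  by_cases hj : j = 0
  · subst hj
    norm_num
  · rw [if_neg hj, if_neg hj]
    by_cases hj1 : j = 1
    · subst hj1
      norm_num
    · rw [if_neg hj1, if_neg hj1, one_div_pow]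
      ring

theorem sum_c0 : HasSum c0 (1 / 2) := by
  have h := (geo.mul_left (1 / 2)).add (hasSum_ite_eq 0 (-(1 / 2) : ℝ))
  have e : (1 / 2 * 2 + -(1 / 2) : ℝ) = 1 / 2 := by norm_num
  rw [e] at h
  refine h.congr_fun fun i => ?_
  unfold c0
  by_cases hi : i = 0
  · subst hi
    norm_num
  · rw [if_neg hi, if_neg hi, one_div_pow]
    ring

theorem sum_d0 : HasSum d0 (1 / 4) := by
  have h := ((geo.mul_left (1 / 2)).add (hasSum_ite_eq 0 (-(1 / 2) : ℝ))).add
    (hasSum_ite_eq 1 (-(1 / 4) : ℝ))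
  have e : (1 / 2 * 2 + -(1 / 2) + -(1 / 4) : ℝ) = 1 / 4 := by norm_num
  rw [e] at h
  refine h.congr_fun fun j => ?_
  unfold d0
  by_cases hj : j = 0
  · subst hj
    norm_num
  · rw [if_neg hj, if_neg hj]
    by_cases hj1 : j = 1
    · subst hj1
      norm_num
    · rw [if_neg hj1, if_neg hj1, one_div_pow]
      ring

theorem sum_TA : HasSum TA (11 / 4) := by
  have h := (row sum_a0 0).add (col sum_b0 0)
  have e : (3 / 2 + 5 / 4 : ℝ) = 11 / 4 := by norm_num
  rw [e] at h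
  refine h.congr_fun fun p => ?_
  unfold TA a0 b0
  by_cases h2 : p.2 = 0 <;> by_cases h1 : p.1 = 0 <;> simp [h1, h2]

theorem sum_TB : HasSum TB (11 / 4) := by
  have h := (((row sum_a0 0).add (col sum_c0 0)).add (row sum_c0 1)).add (col sum_d0 1)
  have e : (3 / 2 + 1 / 2 + 1 / 2 + 1 / 4 : ℝ) = 11 / 4 := by norm_num
  rw [e] at h
  refine h.congr_fun fun p => ?_
  unfold TB a0 c0 d0
  by_cases h2 : p.2 = 0 <;> by_cases h1 : p.1 = 0 <;> by_cases h3 : p.2 = 1 <;>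
    by_cases h4 : p.1 = 1 <;> simp_all

/-! ### bounds -/

theorem bd_aux (i j : ℕ) {c : ℝ} (h0 : 0 ≤ c) (h1 : c * 2 ^ (i + j) ≤ 3 / 2) :
    0 ≤ c ∧ c ≤ 3 / 2 / 2 ^ (i + j) :=
  ⟨h0, by rwa [le_div_iff₀ (by positivity)]⟩

theorem bd_TA (i j : ℕ) : 0 ≤ TA (i, j) ∧ TA (i, j) ≤ 3 / 2 / 2 ^ (i + j) := by
  unfold TA
  by_cases hj : j = 0
  · subst hj
    by_cases hi : i = 0
    · subst hi
      norm_num
    · rw [if_pos rfl, if_neg hi]
      refine bd_aux i 0 (by positivity) ?_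
      rw [add_zero, div_mul_cancel₀ _ (by positivity)]
      norm_num
  · by_cases hi : i = 0
    · subst hi
      rw [if_neg hj, if_pos rfl]
      by_cases hj1 : j = 1
      · subst hj1
        norm_num
      · rw [if_neg hj1]
        refine bd_aux 0 j (by positivity) ?_
        rw [zero_add, div_mul_cancel₀ _ (by positivity)]
        norm_num
    · rw [if_neg hj, if_neg hi]
      exact ⟨le_refl _, by positivity⟩

theorem bd_TB (i j : ℕ) : 0 ≤ TB (i, j) ∧ TB (i, j) ≤ 3 / 2 / 2 ^ (i + j) := by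
  unfold TB
  by_cases hj : j = 0
  · subst hj
    by_cases hi : i = 0
    · subst hi
      norm_num
    · rw [if_pos rfl, if_neg hi]
      refine bd_aux i 0 (by positivity) ?_
      rw [add_zero, div_mul_cancel₀ _ (by positivity)]
      norm_num
  · by_cases hi : i = 0
    · subst hi
      rw [if_neg hj, if_pos rfl]
      refine bd_aux 0 j (by positivity) ?_
      rw [zero_add, div_mul_cancel₀ _ (by positivity)]
      norm_num
    · rw [if_neg hj, if_neg hi]
      by_cases hj1 : j = 1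
      · subst hj1
        rw [if_pos rfl]
        refine bd_aux i 1 (by positivity) ?_
        rw [pow_succ, ← mul_assoc, div_mul_cancel₀ _ (by positivity)]
        norm_num
      · rw [if_neg hj1]
        by_cases hi1 : i = 1
        · subst hi1
          rw [if_pos rfl]
          refine bd_aux 1 j (by positivity) ?_
          rw [Nat.add_comm, pow_succ, ← mul_assoc, div_mul_cancel₀ _ (by positivity)]
          norm_num
        · rw [if_neg hi1]
          exact ⟨le_refl _, by positivity⟩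

theorem t3 : Pool.Agent.H592.TR.T3 := by
  intro u v huv
  rcases huv with ⟨rfl, rfl⟩ | ⟨rfl, rfl⟩ | ⟨rfl, rfl⟩
  · have h1 : ∀ i j, RR 1 2 (2 ^ i) (2 ^ j) = TA (i, j) := by
      intro i j
      have h := tabA 1 1 odd_one odd_one i j
      rw [mul_one] at h
      exact h
    refine ⟨fun i j => ?_, ?_⟩
    · rw [h1]
      exact bd_TA i j
    · exact sum_TA.congr_fun fun p => h1 p.1 p.2
  · refine ⟨fun i j => ?_, ?_⟩
    · rw [tabB]
      exact bd_TB i j
    · exact sum_TB.congr_fun fun p => tabB p.1 p.2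
  · have h1 : ∀ i j, RR (-2) (-1) (2 ^ i) (2 ^ j) = TA (j, i) := by
      intro i j
      rw [RR_swap]
      have h := tabA (-1) (-1) (by decide) (by decide) j i
      rw [show (2 : ℤ) * (-1) = -2 by norm_num] at h
      exact h
    refine ⟨fun i j => ?_, ?_⟩
    · rw [h1, Nat.add_comm i j]
      exact bd_TA j i
    · have h2 := (Equiv.prodComm ℕ ℕ).hasSum_iff.2 sum_TA
      exact h2.congr_fun fun p => h1 p.1 p.2

end Pool.Agent.H921.TR
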